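import Pool.Agent.Lib.helper7.Kok4

set_option autoImplicit false

namespace Pool.Agent.Results.MP_b27eb5_al.No

open Pool.Agent.Lib.helper7.Kok

universe u

/-- Over any field of characteristic not 2, a simple Kokoris algebra lying in a variety all of whose
anticommutative members are locally nilpotent is a field. -/
theorem result (F : Type u) [Field F] (h2 : (2 : F) ≠ 0)
    (S : Set (FreeNonUnitalNonAssocAlgebra F ℕ)) (hLA : LocAdm F S)
    (A : Type u) [NonUnitalNonAssocRing A] [Module F A] [IsScalarTower F A A]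
    [SMulCommClass F A A] (hA : Sat F S A) (hK : KokId A) (hs : IsSimple F A) :
    (∀ a b : A, a * b = b * a) ∧ (∀ a b c : A, a * b * c = a * (b * c)) ∧
      ∃ e : A, e ≠ 0 ∧ (∀ a, e * a = a) ∧ ∀ a : A, a ≠ 0 → ∃ b, a * b = e :=
  haveI : Fact ((2 : F) ≠ 0) := ⟨h2⟩
  haveI : Fact (KokId A) := ⟨hK⟩
  final hLA hA hs

end Pool.Agent.Results.MP_b27eb5_al.No
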